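import Mathlib
import Pool.Prelude.Def_F_8db9d53c

set_option autoImplicit false

/-!
Soft Meyniel: basic definitions.
A robber trajectory is a function `x : ℕ → V`.  `U` is a finite nonempty set of trajectories and the
robber's law is the uniform law on `U`.
-/

noncomputable section

namespace Pool.Agent.H60R2.SM

open N6ef48c04 Finset
open Classical

variable {V : Type*}

/-- the trajectories of `U` which agree with `x` at all times `≤ t` -/
def cls (U : Finset (ℕ → V)) (t : ℕ) (x : ℕ → V) : Finset (ℕ → V) :=
  U.filter (fun y => ∀ i, i ≤ t → y i = x i)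

/-- conditional average of `f` given the history of `x` up to time `t` -/
def av (U : Finset (ℕ → V)) (t : ℕ) (f : (ℕ → V) → ℝ) (x : ℕ → V) : ℝ :=
  (∑ y ∈ cls U t x, f y) / ((cls U t x).card : ℝ)

/-- conditional probability, given the history of `y` up to time `t`, that the position at time `b`
is the one of `y` -/
def rho (U : Finset (ℕ → V)) (t b : ℕ) (y : ℕ → V) : ℝ :=
  (((cls U t y).filter (fun z => z b = y b)).card : ℝ) / ((cls U t y).card : ℝ)

/-- conditional entropy of the position at time `b` given the history up to time `t` -/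
def ent (U : Finset (ℕ → V)) (t b : ℕ) : ℝ :=
  (∑ y ∈ U, - Real.log (rho U t b y)) / (U.card : ℝ)

/-- a strategy of one cop: the position at time `i` depends only on the robber positions at
times `< i`, and consecutive positions are equal or adjacent -/
structure IsStrat (G : SimpleGraph V) (γ : (ℕ → V) → ℕ → V) : Prop where
  adapted : ∀ x y i, (∀ j, j < i → x j = y j) → γ x i = γ y i
  step : ∀ x i, Step G (γ x i) (γ x (i + 1))

/-- one cop that stands at `c` at time `t` can catch (by moving onto the robber, between the times
`t` and `T`) at least `w` of the trajectories of `D` -/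
def Ach (G : SimpleGraph V) (T : ℕ) (D : Finset (ℕ → V)) (t : ℕ) (c : V) (w : ℝ) : Prop :=
  ∃ γ : (ℕ → V) → ℕ → V, IsStrat G γ ∧ (∀ y, γ y t = c) ∧
    w ≤ ((D.filter (fun y => ∃ i, t ≤ i ∧ i < T ∧ γ y (i + 1) = y i)).card : ℝ)

/-- value of the dynamic programme: current time `t`, `i` further rounds, history of `x` up to `t`,
cop at `c`; at the final time the cop wins iff it is equal or adjacent to the robber -/
def val [Fintype V] (G : SimpleGraph V) (U : Finset (ℕ → V)) : ℕ → ℕ → (ℕ → V) → V → ℝ
  | 0, t, x, c => if Step G c (x t) then 1 else 0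
  | (i + 1), t, x, c =>
      (univ.filter (fun c' => Step G c c')).sup' ⟨c, by simp [Step]⟩
        (fun c' => av U t (fun y => val G U i (t + 1) y c') x)

/-- `G` with all edges at vertices of `S` removed -/
def del (G : SimpleGraph V) (S : Finset V) : SimpleGraph V where
  Adj u v := G.Adj u v ∧ u ∉ S ∧ v ∉ S
  symm := ⟨fun _ _ h => ⟨h.1.symm, h.2.2, h.2.1⟩⟩
  loopless := ⟨fun _ h => h.1.ne rfl⟩

end Pool.Agent.H60R2.SM
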