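import Pool.Agent.H60R2.SM.Defs

set_option autoImplicit false

/-! Blueprint statements of the soft Meyniel project.  Every theorem below is a task. -/

noncomputable section

namespace Pool.Agent.H60R2.SM.Stub

open N6ef48c04 Finset
open Classical
open Pool.Agent.H60R2.SM

variable {V : Type*}

/-! ### Task AV (module Av.lean): classes and averages -/

theorem mem_cls_self {U : Finset (ℕ → V)} {x : ℕ → V} (t : ℕ) (hx : x ∈ U) : x ∈ cls U t x := by
  sorry

theorem cls_eq {U : Finset (ℕ → V)} {t : ℕ} {x y : ℕ → V} (h : y ∈ cls U t x) :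
    cls U t y = cls U t x := by
  sorry

theorem cls_card_pos {U : Finset (ℕ → V)} {x : ℕ → V} (t : ℕ) (hx : x ∈ U) :
    (0 : ℝ) < ((cls U t x).card : ℝ) := by
  sorry

theorem cls_anti {U : Finset (ℕ → V)} {t t' : ℕ} (h : t ≤ t') (x : ℕ → V) :
    cls U t' x ⊆ cls U t x := by
  sorry

/-- averaging over classes does not change the total, on every union of classes -/
theorem sum_av (U D : Finset (ℕ → V)) (t : ℕ) (hDU : D ⊆ U) (hcl : ∀ y ∈ D, cls U t y ⊆ D)
    (f : (ℕ → V) → ℝ) : ∑ y ∈ D, av U t f y = ∑ y ∈ D, f y := by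
  sorry

theorem av_congr {U : Finset (ℕ → V)} {t : ℕ} {x y : ℕ → V} (h : y ∈ cls U t x)
    (f : (ℕ → V) → ℝ) : av U t f y = av U t f x := by
  sorry

/-- the total of `g(y, y b) / rho(y)` over `U`, where `g` is measurable at time `t` in its first
argument: it is the total over `y ∈ U` of the sum of `g(y, z)` over the positions `z` at time `b`
that are possible given the history of `y` up to time `t` -/
theorem sum_div_rho [Fintype V] (U : Finset (ℕ → V)) (t b : ℕ) (g : (ℕ → V) → V → ℝ)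
    (hg : ∀ x ∈ U, ∀ y ∈ cls U t x, ∀ z, g y z = g x z) :
    ∑ y ∈ U, g y (y b) / rho U t b y
      = ∑ y ∈ U, ∑ z ∈ (cls U t y).image (fun w => w b), g y z := by
  sorry

/-! ### Task ENT (module Ent.lean): entropy inequalities (uses AV) -/

theorem rho_pos {U : Finset (ℕ → V)} {y : ℕ → V} (t b : ℕ) (hy : y ∈ U) : 0 < rho U t b y := by
  sorry

theorem rho_le_one (U : Finset (ℕ → V)) (t b : ℕ) (y : ℕ → V) : rho U t b y ≤ 1 := by
  sorry

theorem ent_nonneg (U : Finset (ℕ → V)) (t b : ℕ) : 0 ≤ ent U t b := by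
  sorry

theorem ent_anti [Fintype V] (U : Finset (ℕ → V)) (t b : ℕ) : ent U (t + 1) b ≤ ent U t b := by
  sorry

theorem ent_le_log [Fintype V] (U : Finset (ℕ → V)) (H : Finset V) (hH : H.Nonempty)
    (hUH : ∀ y ∈ U, ∀ i, y i ∈ H) (t b : ℕ) : ent U t b ≤ Real.log (H.card : ℝ) := by
  sorry

theorem ent_two (U : Finset (ℕ → V)) (t : ℕ) :
    ent U t (t + 2) ≤ ent U t (t + 1) + ent U (t + 1) (t + 2) := by
  sorry

/-- Jensen step -/
theorem jensen_step [Fintype V] (U : Finset (ℕ → V)) (hU : U.Nonempty) {t t' b : ℕ} (htt : t ≤ t')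
    (q : (ℕ → V) → V → ℝ) (hq0 : ∀ y ∈ U, ∀ z, 0 ≤ q y z)
    (hqa : ∀ x ∈ U, ∀ y ∈ cls U t' x, ∀ z, q y z = q x z)
    (hpos : ∀ y ∈ U, 0 < q y (y b)) :
    (∑ y ∈ U, Real.log (q y (y b))) / (U.card : ℝ) - (ent U t b - ent U t' b)
      ≤ (∑ y ∈ U, Real.log (av U t (fun x => q x (y b)) y)) / (U.card : ℝ) := by
  sorry

/-! ### Task STR (module Str.lean): strategies of one cop (uses AV only through `sum_av`) -/

theorem ach_mono (G : SimpleGraph V) {T t : ℕ} {D : Finset (ℕ → V)} {c : V} {w w' : ℝ}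
    (h : w' ≤ w) (hA : Ach G T D t c w) : Ach G T D t c w' := by
  sorry

theorem ach_zero (G : SimpleGraph V) (T t : ℕ) (D : Finset (ℕ → V)) (c : V) :
    Ach G T D t c 0 := by
  sorry

theorem ach_base (G : SimpleGraph V) {T t : ℕ} (ht : t < T) (D : Finset (ℕ → V)) (a c : V)
    (hD : ∀ y ∈ D, y t = a) (h : Step G c a) : Ach G T D t c (D.card : ℝ) := by
  sorry

theorem ach_move (G : SimpleGraph V) {T t : ℕ} {D : Finset (ℕ → V)} {c c' : V} {w : ℝ}
    (h : Step G c c') (hA : Ach G T D (t + 1) c' w) : Ach G T D t c w := by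
  sorry

theorem ach_travel (G : SimpleGraph V) {T t s : ℕ} {D : Finset (ℕ → V)} {c c' : V} {w : ℝ}
    (p : G.Walk c c') (hp : p.length ≤ s) (hA : Ach G T D (t + s) c' w) : Ach G T D t c w := by
  sorry

/-- combining the strategies of the classes at time `t` -/
theorem ach_comb (G : SimpleGraph V) {T t : ℕ} (U D : Finset (ℕ → V)) (hDU : D ⊆ U)
    (hcl : ∀ y ∈ D, cls U t y ⊆ D) (c : V) (f : (ℕ → V) → ℝ)
    (hf : ∀ y ∈ D, ∀ z ∈ cls U t y, f z = f y)
    (hA : ∀ y ∈ D, Ach G T (cls U t y) t c (f y * ((cls U t y).card : ℝ))) :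
    Ach G T D t c (∑ y ∈ D, f y) := by
  sorry

/-! ### Task VAL (module Val.lean): the dynamic programme (uses STR, AV) -/

theorem val_nonneg [Fintype V] (G : SimpleGraph V) (U : Finset (ℕ → V)) (i t : ℕ) (x : ℕ → V)
    (c : V) : 0 ≤ val G U i t x c := by
  sorry

theorem val_congr [Fintype V] (G : SimpleGraph V) (U : Finset (ℕ → V)) (i t : ℕ) {x y : ℕ → V}
    (h : y ∈ cls U t x) (c : V) : val G U i t y c = val G U i t x c := by
  sorry

theorem av_val_le [Fintype V] (G : SimpleGraph V) (U : Finset (ℕ → V)) (i t : ℕ) (x : ℕ → V)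
    {c c' : V} (h : Step G c c') :
    av U t (fun y => val G U i (t + 1) y c') x ≤ val G U (i + 1) t x c := by
  sorry

theorem val_ach [Fintype V] (G : SimpleGraph V) (U : Finset (ℕ → V)) (T i t : ℕ) (hT : t + i < T)
    (x : ℕ → V) (hx : x ∈ U) (c : V) :
    Ach G T (cls U t x) t c (val G U i t x c * ((cls U t x).card : ℝ)) := by
  sorry

/-- the cop at `c` at time `t0` goes to `c'` (at time `t0 + s`, where `c'` may depend on the history
up to `t0`) and then uses the dynamic programme; the maximum over `c'` is at least the geometric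
mean over the law of the position at time `b` -/
theorem top_ach [Fintype V] (G : SimpleGraph V) (U : Finset (ℕ → V)) (hU : U.Nonempty)
    (H : Finset V) (hUH : ∀ y ∈ U, ∀ i, y i ∈ H) (s : ℕ)
    (hs : ∀ u ∈ H, ∀ v ∈ H, ∃ p : G.Walk u v, p.length ≤ s)
    (T t0 i b : ℕ) (hT : t0 + s + i < T) (c : V) (hc : c ∈ H) (a : ℝ)
    (hpos : ∀ y ∈ U, 0 < av U t0 (fun x => val G U i (t0 + s) x (y b)) y)
    (ha : a ≤ (∑ y ∈ U, Real.log (av U t0 (fun x => val G U i (t0 + s) x (y b)) y)) / (U.card : ℝ)) :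
    Ach G T U 0 c (Real.exp a * (U.card : ℝ)) := by
  sorry

/-! ### Task CHAIN (module Chain.lean): uses ENT.jensen_step, VAL -/

/-- odd chain: `i` further rounds, current time `t`, target time `t + 2 i + 1` -/
theorem odd_chain [Fintype V] (G : SimpleGraph V) (U : Finset (ℕ → V)) (hU : U.Nonempty)
    (hUs : ∀ y ∈ U, ∀ j, Step G (y j) (y (j + 1))) (i t : ℕ) :
    (∀ y ∈ U, 0 < val G U i t y (y (t + 2 * i + 1))) ∧
    - (∑ j ∈ range i, (ent U (t + j) (t + 2 * i - j) - ent U (t + j + 1) (t + 2 * i - j)))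
      ≤ (∑ y ∈ U, Real.log (val G U i t y (y (t + 2 * i + 1)))) / (U.card : ℝ) := by
  sorry

/-- even chain: `i + 1` further rounds, current time `t`, target time `t + 2 i + 2` -/
theorem even_chain [Fintype V] (G : SimpleGraph V) (U : Finset (ℕ → V)) (hU : U.Nonempty)
    (hUs : ∀ y ∈ U, ∀ j, Step G (y j) (y (j + 1))) (i t : ℕ) :
    (∀ y ∈ U, 0 < val G U (i + 1) t y (y (t + 2 * i + 2))) ∧
    - ((∑ j ∈ range i, (ent U (t + j) (t + 2 * i + 1 - j) - ent U (t + j + 1) (t + 2 * i + 1 - j)))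
        + (ent U (t + i) (t + i + 2) - ent U (t + i + 1) (t + i + 2)))
      ≤ (∑ y ∈ U, Real.log (val G U (i + 1) t y (y (t + 2 * i + 2)))) / (U.card : ℝ) := by
  sorry

/-! ### Task AVG (module Avg.lean): pure real arithmetic -/

/-- cost of the odd chain started at `t0`, with travelling time `s` -/
def costO (h : ℕ → ℕ → ℝ) (s i t0 : ℕ) : ℝ :=
  (h t0 (t0 + s + 2 * i + 1) - h (t0 + s) (t0 + s + 2 * i + 1)) +
    ∑ j ∈ range i, (h (t0 + s + j) (t0 + s + 2 * i - j) - h (t0 + s + j + 1) (t0 + s + 2 * i - j))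

/-- cost of the even chain started at `t0`, with travelling time `s` -/
def costE (h : ℕ → ℕ → ℝ) (s i t0 : ℕ) : ℝ :=
  (h t0 (t0 + s + 2 * i + 2) - h (t0 + s) (t0 + s + 2 * i + 2)) +
    ((∑ j ∈ range i,
        (h (t0 + s + j) (t0 + s + 2 * i + 1 - j) - h (t0 + s + j + 1) (t0 + s + 2 * i + 1 - j)))
      + (h (t0 + s + i) (t0 + s + i + 2) - h (t0 + s + i + 1) (t0 + s + i + 2)))

/-- `s = 2 s'` -/
theorem averaging (h : ℕ → ℕ → ℝ) (L : ℝ) (h0 : ∀ a b, 0 ≤ h a b) (hL : ∀ a b, h a b ≤ L)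
    (hanti : ∀ a b, h (a + 1) b ≤ h a b)
    (htwo : ∀ a, h a (a + 2) ≤ h a (a + 1) + h (a + 1) (a + 2))
    (s' K M : ℕ) (hs : 1 ≤ s') (hK : L ≤ K) (hK1 : 1 ≤ K)
    (hM : (4 * K * s' + 4 : ℝ) * L ≤ M) (hM1 : 1 ≤ M) :
    ∃ i t0, i ≤ K * s' ∧ t0 < M ∧
      (costO h (2 * s') i t0 ≤ L / 2 + 2 ∨ costE h (2 * s') i t0 ≤ L / 2 + 2) := by
  sorry

/-! ### Task COVER (module Cover.lean): greedy covering -/

theorem cover (G : SimpleGraph V) (T : ℕ) (Om : Finset (ℕ → V)) (c : V) (p : ℝ) (hp0 : 0 < p)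
    (hp1 : p ≤ 1)
    (hA : ∀ U : Finset (ℕ → V), U ⊆ Om → U.Nonempty → Ach G T U 0 c (p * (U.card : ℝ)))
    (N : ℕ) (hN : Real.log (Om.card : ℝ) < p * N) :
    ∃ γ : Fin N → (ℕ → V) → ℕ → V, (∀ j, IsStrat G (γ j)) ∧ (∀ j x, γ j x 0 = c) ∧
      ∀ x ∈ Om, ∃ j, ∃ i, i < T ∧ γ j x (i + 1) = x i := by
  sorry

/-! ### Task COUNT (module Count.lean): finitely many stopped walks -/

theorem walks_finset [Fintype V] (G : SimpleGraph V) (H : Finset V) (T : ℕ) :
    ∃ Om : Finset (ℕ → V),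
      (∀ x, x ∈ Om ↔ ((∀ i, x i ∈ H) ∧ (∀ i, Step G (x i) (x (i + 1))) ∧ ∀ i, T ≤ i → x i = x T)) ∧
      Om.card ≤ H.card ^ (T + 1) := by
  sorry

/-! ### Task GAME (module Game.lean) -/

/-- a family of adapted strategies and static guards win when the robber is in `H` -/
theorem game {a N : ℕ} (G : SimpleGraph V) (A : Fin a → V) (W : Finset V)
    (hW : ∀ w ∈ W, ∃ i, Step G (A i) w) (H : Finset V)
    (hH : ∀ u ∈ H, ∀ v, Step G u v → v ∈ H ∨ v ∈ W) (T : ℕ) (c : V)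
    (γ : Fin N → (ℕ → V) → ℕ → V) (hγ : ∀ j, IsStrat G (γ j)) (hc : ∀ j x, γ j x 0 = c)
    (hcov : ∀ x : ℕ → V, (∀ i, x i ∈ H) → (∀ i, Step G (x i) (x (i + 1))) →
      (∀ i, T ≤ i → x i = x T) → ∃ j, ∃ i, i < T ∧ γ j x (i + 1) = x i) :
    ∀ r ∈ H, CopsCatchWithin G (a + N) (T + 1) (Fin.append A (fun _ => c)) r := by
  sorry

/-- travelling: the guards stay, the other cops move along paths -/
theorem travel {a N : ℕ} (G : SimpleGraph V) (A : Fin a → V) (W : Finset V)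
    (hW : ∀ w ∈ W, ∃ i, Step G (A i) w) (H : Finset V)
    (hH : ∀ u ∈ H, ∀ v, Step G u v → v ∈ H ∨ v ∈ W) (m s : ℕ) (hm : 1 ≤ m)
    (c c' : Fin N → V) (hcc : ∀ j, ∃ p : G.Walk (c j) (c' j), p.length ≤ s)
    (h : ∀ r ∈ H, CopsCatchWithin G (a + N) m (Fin.append A c') r) :
    ∀ r ∈ H, CopsCatchWithin G (a + N) (m + s) (Fin.append A c) r := by
  sorry

/-- gluing over the regions -/
theorem win {a N : ℕ} [Fintype V] (G : SimpleGraph V) (hG : G.Connected) (A : Fin a → V)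
    (W : Finset V) (hW : ∀ w ∈ W, ∃ i, Step G (A i) w)
    (h : ∀ v, v ∉ W → ∃ H : Finset V, v ∈ H ∧ (∀ u ∈ H, ∀ w, Step G u w → w ∈ H ∨ w ∈ W) ∧
      ∃ m c, 1 ≤ m ∧ ∀ r ∈ H, CopsCatchWithin G (a + N) m (Fin.append A c) r) :
    CopsWin G (a + N) := by
  sorry

/-! ### Task DECOMP (module Decomp.lean): ball growing -/

theorem decomp [Fintype V] (G : SimpleGraph V) (η : ℝ) (ρ : ℕ) (hη : 0 < η)
    (hρ : (Fintype.card V : ℝ) < (1 + η) ^ ρ) :
    ∃ S : Finset V, (S.card : ℝ) ≤ η * Fintype.card V ∧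
      ∀ u v, u ∉ S → v ∉ S → (del G S).Reachable u v →
        ∃ p : (del G S).Walk u v, p.length ≤ 2 * ρ := by
  sorry

end Pool.Agent.H60R2.SM.Stub
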